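import Mathlib
import Pool.Agent.Lib.MP_4f0ec0_al.Backward

/-! Q1: characterisation of the almost solvable integers, and the unique non-solvable group. -/

namespace Pool.Agent.Results.MP_4f0ec0_al.AlmostSolvableNumbers

open Pool.Agent.Lib.MP_4f0ec0_al
open Nat

/-- The conditions on `n` and a nonabelian simple group `S`: `S` is the only nonabelian simple
group whose order divides `n`, and `m = n / |S|` is coprime to `φ m`, to the order of the outer
automorphism group of `S`, and has no prime factor `r` for which `S` has a perfect cover of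
degree `r`. -/
def Condition (n : ℕ) (S : Type) [Group S] : Prop :=
  NonabSimple S ∧ Nat.card S ∣ n ∧
    (∀ (T : Type) (_ : Group T), NonabSimple T → Nat.card T ∣ n → Nonempty (T ≃* S)) ∧
    Nat.Coprime (n / Nat.card S) (φ (n / Nat.card S)) ∧
    Nat.Coprime (n / Nat.card S) (outOrder S) ∧
    ∀ r, r.Prime → r ∣ n / Nat.card S → ¬ HasPerfectCover S r

theorem result (n : ℕ) (hn : 0 < n) :
    (AlmostSolvable n ↔ ∃ (S : Type) (_ : Group S), Condition n S) ∧
      ∀ (S : Type) (_ : Group S), Condition n S → ∀ (G : Type) (_ : Group G), Nat.card G = n →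
        ¬ Group.IsSolvable G → Nonempty (G ≃* S × Multiplicative (ZMod (n / Nat.card S))) := by
  have key : ∀ (S : Type) (_ : Group S), Condition n S → ∀ (G : Type) (_ : Group G),
      Nat.card G = n → ¬ Group.IsSolvable G → Nonempty (G ≃* S × Cyc (n / Nat.card S)) := by
    rintro S _ ⟨h1, h2, h3, h4, h5, h6⟩ G _ hG hns
    have hSfin : Finite S := h1.1
    have hSpos : 0 < Nat.card S := Nat.card_pos
    obtain ⟨m, rfl⟩ := h2
    have hm : m ≠ 0 := by
      rintro rfl
      simp at hn
    have hdiv : Nat.card S * m / Nat.card S = m := Nat.mul_div_cancel_left m hSpos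
    rw [hdiv] at h4 h5 h6 ⊢
    exact equiv_prod h1 hm h3 h4 h5 h6 hG hns
  refine ⟨⟨?_, ?_⟩, key⟩
  · intro h
    obtain ⟨S, hSg, h1, h2, h3, h4, h5, h6⟩ := forward hn h
    exact ⟨S, hSg, h1, h2, h3, h4, h5, h6⟩
  · rintro ⟨S, hSg, hS⟩
    have hSfin : Finite S := hS.1.1
    have hSpos : 0 < Nat.card S := Nat.card_pos
    obtain ⟨m, hm⟩ := hS.2.1
    have hdiv : n / Nat.card S = m := by rw [hm]; exact Nat.mul_div_cancel_left m hSpos
    refine ⟨⟨S × Cyc m, inferInstance, ?_, prod_not_solvable hS.1 _⟩, ?_⟩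
    · rw [Nat.card_prod, card_Cyc, hm]
    · intro G H _ _ hG hH hGs hHs
      obtain ⟨e1⟩ := key S hSg hS G inferInstance hG hGs
      obtain ⟨e2⟩ := key S hSg hS H inferInstance hH hHs
      exact ⟨e1.trans e2.symm⟩

end Pool.Agent.Results.MP_4f0ec0_al.AlmostSolvableNumbers
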