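import Mathlib
import Pool.Agent.Lib.MP_4f0ec0_al.Final2

/-! Q2: characterisation of the almost supersolvable integers. -/

namespace Pool.Agent.Results.MP_4f0ec0_al.AlmostSupersolvableNumbers

open Pool.Agent.Lib.MP_4f0ec0_al

/-- A positive integer `n` is almost supersolvable if and only if `60` does not divide `n` and `n`
is of type `A`, `B` or `C`. -/
theorem result (n : ℕ) (hn : 0 < n) :
    AlmostSupersolvable n ↔ ¬ 60 ∣ n ∧ (TypeA n ∨ TypeB n ∨ TypeC n) :=
  almost_iff_unconditional hn

end Pool.Agent.Results.MP_4f0ec0_al.AlmostSupersolvableNumbers
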